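import Pool.Agent.T9h88.IP.Spec
import Pool.Agent.T9h58.IP.Lem

/-!
# Use and proof of the axioms of trust
-/

set_option autoImplicit false

namespace Pool.Agent.T9h58.IP

open Pool.Agent.TH672 (Fm Str upd upd_ne upd_same num digits varStr LogK ReplK Sw Pv)
open Pool.Agent.TH672.Form (ren)
open Pool.Agent.TH636.BC
open Pool.Agent.T9h6.BC (sz cl sz_imp sz_all sz_pos TD fo pp subst_self freeFor_self)
open Pool.Agent.T9h88.IO
open Pool.Agent.T9h88.IP

variable {ι : Type} {Γ : ι → List Fml} {D : ι → CD}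

theorem stepE {x : ℕ} {n : ι → ℕ} {A α β : ι → Fml} (hx0 : x ≠ 0) (hx1 : x ≠ 1) (hxV : x < VB)
    (hA0 : ∀ i, ¬ (A i).Free 0) (hA1 : ∀ i, ¬ (A i).Free 1)
    (hβ0 : ∀ i, ¬ (β i).Free 0) (hβ1 : ∀ i, ¬ (β i).Free 1) (hβx : ∀ i, ¬ (β i).Free x)
    (hn : ∀ i, n i ≤ (D i).M)
    (h : PP Γ (fun i => (D i).L) fun i => (D i).χ.imp ((A i).imp (α i)))
    (r : PP Γ (fun i => (D i).L) fun i => (Fm.eq x (n i + VB)).imp ((α i).imp (β i))) :
    PP Γ (fun i => (D i).L) fun i => (D i).χ.imp ((inst x (n i) (A i)).imp (β i)) := by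
  refine ppInstE hx0 hx1 hxV hA0 hA1 hβ0 hβ1 hβx hn ?_
  refine (h.trans ?_).s (PP.k (sp_chi D) r)
  exact PP.taut (.imp (.imp (pp 0) (pp 1)) (.imp (.imp (pp 3) (.imp (pp 1) (pp 2)))
    (.imp (pp 3) (.imp (pp 0) (pp 2))))) (by intro S v; simp only [Fm.sat_imp]; tauto)
    h.sp.right.left h.sp.right.right r.sp.right.right r.sp.left fun _ _ => rfl

theorem stepI {x : ℕ} {n : ι → ℕ} {A α β : ι → Fml} (hR : ∀ i, ∀ ψ ∈ robinson, ψ ∈ Γ i)
    (hx0 : x ≠ 0) (hx1 : x ≠ 1) (hxV : x < VB)
    (hA0 : ∀ i, ¬ (A i).Free 0) (hA1 : ∀ i, ¬ (A i).Free 1)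
    (hβ0 : ∀ i, ¬ (β i).Free 0) (hβ1 : ∀ i, ¬ (β i).Free 1) (hβx : ∀ i, ¬ (β i).Free x)
    (hn : ∀ i, n i ≤ (D i).M)
    (h : PP Γ (fun i => (D i).L) fun i => (D i).χ.imp ((α i).imp (A i)))
    (r : PP Γ (fun i => (D i).L) fun i => (Fm.eq x (n i + VB)).imp ((β i).imp (α i))) :
    PP Γ (fun i => (D i).L) fun i => (D i).χ.imp ((β i).imp (inst x (n i) (A i))) := by
  refine ppInstI hR hx0 hx1 hxV hA0 hA1 hβ0 hβ1 hβx hn ?_
  refine (h.trans ?_).s (PP.k (sp_chi D) r)
  exact PP.taut (.imp (.imp (pp 1) (pp 0)) (.imp (.imp (pp 3) (.imp (pp 2) (pp 1)))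
    (.imp (pp 3) (.imp (pp 2) (pp 0))))) (by intro S v; simp only [Fm.sat_imp]; tauto)
    h.sp.right.right h.sp.right.left r.sp.right.left r.sp.left fun _ _ => rfl

/-- replacement in an atomic formula -/
theorem repE {x : ℕ} {n : ι → ℕ} {a b c a' b' c' : ι → ℕ} (hx : x < VB)
    (hn : ∀ i, n i ≤ (D i).M)
    (ha : ∀ i, a i ≤ (D i).M + VB) (hb : ∀ i, b i ≤ (D i).M + VB) (hc : ∀ i, c i ≤ (D i).M + VB)
    (ha' : ∀ i, a' i ≤ (D i).M + VB) (hb' : ∀ i, b' i ≤ (D i).M + VB)
    (hc' : ∀ i, c' i ≤ (D i).M + VB)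
    (h1 : ∀ i, a' i = a i ∨ (a i = x ∧ a' i = n i + VB))
    (h2 : ∀ i, b' i = b i ∨ (b i = x ∧ b' i = n i + VB))
    (h3 : ∀ i, c' i = c i ∨ (c i = x ∧ c' i = n i + VB)) :
    PP Γ (fun i => (D i).L) fun i => (Fm.eq x (n i + VB)).imp
      (((o3 iTr (a i) (b i) (c i)).fm).imp (o3 iTr (a' i) (b' i) (c' i)).fm) := by
  have hVB : VB = 60 := rfl
  refine ⟨2000, fun i => (Proves.log (.repl _ _ _ _ ?_)).mono ?_⟩
  · have k : ∀ u u' : ℕ, (u' = u ∨ (u = x ∧ u' = n i + VB)) → Sw x (n i + VB) u u' := by
      rintro u u' (rfl | ⟨h, h'⟩)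
      · exact .inl rfl
      · exact .inr ⟨h, h'⟩
    exact .op (k _ _ (h1 i)) (k _ _ (h2 i)) (k _ _ (h3 i)) (k _ _ (h3 i))
  · have h0 := hn i
    have k1 := ha i
    have k2 := hb i
    have k3 := hc i
    have k4 := ha' i
    have k5 := hb' i
    have k6 := hc' i
    have g2 : (D i).M < (D i).L := (D i).h.numlt
    have g3 := mul_pb 1500 1 (D i).L
    have g4 := le_pb (C := 1) (D i).L le_rfl
    have g5 : pb (1500 + 1) (D i).L ≤ pb 2000 (D i).L := pb_le (by omega) le_rfl
    simp only [o3, At.fm, sz_imp, T9h6.BC.sz_eq, T9h6.BC.sz_op, iTr]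
    omega

/-- symmetry of equality -/
theorem ppSym {x : ℕ} {n : ι → ℕ} (hx : x < VB) (hn : ∀ i, n i ≤ (D i).M) :
    PP Γ (fun i => (D i).L) fun i => (Fm.eq x (n i + VB)).imp (Fm.eq (n i + VB) x) := by
  have hVB : VB = 60 := rfl
  have r1 : PP Γ (fun i => (D i).L) fun i => (Fm.eq x (n i + VB)).imp
      ((Fm.eq x x).imp (Fm.eq (n i + VB) x)) := by
    refine ⟨2000, fun i => (Proves.log (.repl _ _ _ _ (.eq (.inr ⟨rfl, rfl⟩)
      (.inl rfl)))).mono ?_⟩
    have h1 := hn i
    have h2 : (D i).M < (D i).L := (D i).h.numlt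
    have h3 := mul_pb 1500 1 (D i).L
    have h4 := le_pb (C := 1) (D i).L le_rfl
    have h5 : pb (1500 + 1) (D i).L ≤ pb 2000 (D i).L := pb_le (by omega) le_rfl
    simp only [sz_imp, T9h6.BC.sz_eq]
    omega
  have r2 : PP Γ (fun i => (D i).L) fun _ => (Fm.eq x x : Fml) :=
    ⟨sz (Fm.eq x x : Fml), fun i => (Proves.log (.refl x)).mono (const_le_pb _ _)⟩
  exact r1.s (PP.k r1.sp.left r2)

/-- replacement in the other direction -/
theorem repI {x : ℕ} {n : ι → ℕ} {a b c a' b' c' : ι → ℕ} (hx : x < VB)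
    (hn : ∀ i, n i ≤ (D i).M)
    (ha : ∀ i, a i ≤ (D i).M + VB) (hb : ∀ i, b i ≤ (D i).M + VB) (hc : ∀ i, c i ≤ (D i).M + VB)
    (ha' : ∀ i, a' i ≤ (D i).M + VB) (hb' : ∀ i, b' i ≤ (D i).M + VB)
    (hc' : ∀ i, c' i ≤ (D i).M + VB)
    (h1 : ∀ i, a' i = a i ∨ (a' i = x ∧ a i = n i + VB))
    (h2 : ∀ i, b' i = b i ∨ (b' i = x ∧ b i = n i + VB))
    (h3 : ∀ i, c' i = c i ∨ (c' i = x ∧ c i = n i + VB)) :
    PP Γ (fun i => (D i).L) fun i => (Fm.eq x (n i + VB)).imp
      (((o3 iTr (a i) (b i) (c i)).fm).imp (o3 iTr (a' i) (b' i) (c' i)).fm) := by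
  have hVB : VB = 60 := rfl
  refine (ppSym hx hn).trans ?_
  refine ⟨2000, fun i => (Proves.log (.repl _ _ _ _ ?_)).mono ?_⟩
  · have k : ∀ u u' : ℕ, (u' = u ∨ (u' = x ∧ u = n i + VB)) → Sw (n i + VB) x u u' := by
      rintro u u' (rfl | ⟨h, h'⟩)
      · exact .inl rfl
      · exact .inr ⟨h', h⟩
    exact .op (k _ _ (h1 i)) (k _ _ (h2 i)) (k _ _ (h3 i)) (k _ _ (h3 i))
  · have h0 := hn i
    have k1 := ha i
    have k2 := hb i
    have k3 := hc i
    have k4 := ha' i
    have k5 := hb' i
    have k6 := hc' i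
    have g2 : (D i).M < (D i).L := (D i).h.numlt
    have g3 := mul_pb 1500 1 (D i).L
    have g4 := le_pb (C := 1) (D i).L le_rfl
    have g5 : pb (1500 + 1) (D i).L ≤ pb 2000 (D i).L := pb_le (by omega) le_rfl
    simp only [o3, At.fm, sz_imp, T9h6.BC.sz_eq, T9h6.BC.sz_op, iTr]
    omega

theorem nf_o3 {i a b c x : ℕ} (h1 : x ≠ a) (h2 : x ≠ b) (h3 : x ≠ c) :
    ¬ ((o3 i a b c).fm : Fml).Free x := by
  intro h
  simp only [o3, At.fm, Fm.Free] at h
  omega

theorem nf_inst {x n y : ℕ} {φ : Fml} (h : ¬ φ.Free y) : ¬ (inst x n φ).Free y :=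
  fun k => h (TH838.J1549.free_inst k).2.2

theorem sp_o3 {x : ℕ} {a b c : ι → ℕ} (ha : ∀ i, a i ≤ (D i).M + VB) (hb : ∀ i, b i ≤ (D i).M + VB)
    (hc : ∀ i, c i ≤ (D i).M + VB) :
    PP Γ (fun i => (D i).L) fun i => ((o3 iTr (a i) (b i) (c i)).fm).imp
      (o3 iTr (a i) (b i) (c i)).fm := by
  have hVB : VB = 60 := rfl
  have h : SP (fun i => (D i).L) fun i => (o3 iTr (a i) (b i) (c i)).fm := by
    refine ⟨2000, fun i => ?_⟩
    have k1 := ha i
    have k2 := hb i
    have k3 := hc i
    have g2 : (D i).M < (D i).L := (D i).h.numlt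
    have g3 := mul_pb 1500 1 (D i).L
    have g4 := le_pb (C := 1) (D i).L le_rfl
    have g5 : pb (1500 + 1) (D i).L ≤ pb 2000 (D i).L := pb_le (by omega) le_rfl
    simp only [o3, At.fm, T9h6.BC.sz_op, iTr]
    omega
  exact PP.taut (.imp (pp 0) (pp 0)) (by intro S v; simp only [Fm.sat_imp]; tauto) h h h h
    fun _ _ => rfl

/-- (W4) -/
theorem w4 : W4 := by
  have hVB : VB = 60 := rfl
  constructor
  · intro ι Γ D e hv hi hm hz
    have b0 : PP Γ (fun i => (D i).L) fun _ => (θ1.imp θ1 : Fml) :=
      sp_o3 (x := 0) (a := fun _ => 27) (b := fun _ => 26) (c := fun _ => 29) (D := D)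
        (fun _ => by omega) (fun _ => by omega) (fun _ => by omega)
    have b1 := stepE (D := D) (x := 26) (n := fun i => (e i).i) (A := fun _ => θ1)
      (α := fun i => (o3 iTr 27 26 29).fm) (β := fun i => (o3 iTr 27 ((e i).i + VB) 29).fm)
      (by omega) (by omega) (by omega) (fun i => nf_o3 (by omega) (by omega) (by omega))
      (fun i => nf_o3 (by omega) (by omega) (by omega))
      (fun i => nf_o3 (by omega) (by omega) (by omega))
      (fun i => nf_o3 (by omega) (by omega) (by omega))
      (fun i => nf_o3 (by omega) (by omega) (by omega)) hi (PP.k (sp_chi D) b0)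
      (repE (by omega) hi (fun i => by omega) (fun i => by omega) (fun i => by omega)
        (fun i => by omega) (fun i => by have := hi i; omega) (fun i => by omega)
        (fun i => by simp) (fun i => by simp) (fun i => by simp))
    have b2 := stepE (D := D) (x := 27) (n := fun i => (e i).v)
      (A := fun i => inst 26 (e i).i θ1)
      (α := fun i => (o3 iTr 27 ((e i).i + VB) 29).fm)
      (β := fun i => (o3 iTr ((e i).v + VB) ((e i).i + VB) 29).fm)
      (by omega) (by omega) (by omega)
      (fun i => nf_inst (nf_o3 (by omega) (by omega) (by omega)))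
      (fun i => nf_inst (nf_o3 (by omega) (by omega) (by omega)))
      (fun i => nf_o3 (by omega) (by omega) (by omega))
      (fun i => nf_o3 (by omega) (by omega) (by omega))
      (fun i => nf_o3 (by omega) (by omega) (by omega)) hv b1
      (repE (by omega) hv (fun i => by omega) (fun i => by have := hi i; omega)
        (fun i => by omega) (fun i => by have := hv i; omega) (fun i => by have := hi i; omega)
        (fun i => by omega) (fun i => by simp) (fun i => by simp) (fun i => by simp))
    have b3 := stepE (D := D) (x := 28) (n := fun i => (e i).m)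
      (A := fun i => inst 27 (e i).v (inst 26 (e i).i θ1))
      (α := fun i => (o3 iTr ((e i).v + VB) ((e i).i + VB) 29).fm)
      (β := fun i => (o3 iTr ((e i).v + VB) ((e i).i + VB) 29).fm)
      (by omega) (by omega) (by omega)
      (fun i => nf_inst (nf_inst (nf_o3 (by omega) (by omega) (by omega))))
      (fun i => nf_inst (nf_inst (nf_o3 (by omega) (by omega) (by omega))))
      (fun i => nf_o3 (by omega) (by omega) (by omega))
      (fun i => nf_o3 (by omega) (by omega) (by omega))
      (fun i => nf_o3 (by omega) (by omega) (by omega)) hm b2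
      (repE (by omega) hm (fun i => by have := hv i; omega) (fun i => by have := hi i; omega)
        (fun i => by omega) (fun i => by have := hv i; omega) (fun i => by have := hi i; omega)
        (fun i => by omega) (fun i => by simp) (fun i => by simp) (fun i => by simp))
    have b4 := stepE (D := D) (x := 29) (n := fun i => (e i).z)
      (A := fun i => inst 28 (e i).m (inst 27 (e i).v (inst 26 (e i).i θ1)))
      (α := fun i => (o3 iTr ((e i).v + VB) ((e i).i + VB) 29).fm)
      (β := fun i => (o3 iTr ((e i).v + VB) ((e i).i + VB) ((e i).z + VB)).fm)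
      (by omega) (by omega) (by omega)
      (fun i => nf_inst (nf_inst (nf_inst (nf_o3 (by omega) (by omega) (by omega)))))
      (fun i => nf_inst (nf_inst (nf_inst (nf_o3 (by omega) (by omega) (by omega)))))
      (fun i => nf_o3 (by omega) (by omega) (by omega))
      (fun i => nf_o3 (by omega) (by omega) (by omega))
      (fun i => nf_o3 (by omega) (by omega) (by omega)) hz b3
      (repE (by omega) hz (fun i => by have := hv i; omega) (fun i => by have := hi i; omega)
        (fun i => by omega) (fun i => by have := hv i; omega) (fun i => by have := hi i; omega)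
        (fun i => by have := hz i; omega) (fun i => by simp) (fun i => by simp)
        (fun i => by simp))
    exact b4
  · intro ι Γ D e hR hv hi hm hz
    have b0 : PP Γ (fun i => (D i).L) fun _ => (θ1.imp θ1 : Fml) :=
      sp_o3 (x := 0) (a := fun _ => 27) (b := fun _ => 26) (c := fun _ => 29) (D := D)
        (fun _ => by omega) (fun _ => by omega) (fun _ => by omega)
    have b1 := stepI (D := D) (x := 26) (n := fun i => (e i).i) (A := fun _ => θ1)
      (α := fun i => (o3 iTr 27 26 29).fm) (β := fun i => (o3 iTr 27 ((e i).i + VB) 29).fm)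
      hR (by omega) (by omega) (by omega) (fun i => nf_o3 (by omega) (by omega) (by omega))
      (fun i => nf_o3 (by omega) (by omega) (by omega))
      (fun i => nf_o3 (by omega) (by omega) (by omega))
      (fun i => nf_o3 (by omega) (by omega) (by omega))
      (fun i => nf_o3 (by omega) (by omega) (by omega)) hi (PP.k (sp_chi D) b0)
      (repI (by omega) hi (fun i => by omega) (fun i => by have := hi i; omega)
        (fun i => by omega)
        (fun i => by omega) (fun i => by omega) (fun i => by omega)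
        (fun i => by simp) (fun i => by simp) (fun i => by simp))
    have b2 := stepI (D := D) (x := 27) (n := fun i => (e i).v)
      (A := fun i => inst 26 (e i).i θ1)
      (α := fun i => (o3 iTr 27 ((e i).i + VB) 29).fm)
      (β := fun i => (o3 iTr ((e i).v + VB) ((e i).i + VB) 29).fm)
      hR (by omega) (by omega) (by omega)
      (fun i => nf_inst (nf_o3 (by omega) (by omega) (by omega)))
      (fun i => nf_inst (nf_o3 (by omega) (by omega) (by omega)))
      (fun i => nf_o3 (by omega) (by omega) (by omega))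
      (fun i => nf_o3 (by omega) (by omega) (by omega))
      (fun i => nf_o3 (by omega) (by omega) (by omega)) hv b1
      (repI (by omega) hv (fun i => by have := hv i; omega) (fun i => by have := hi i; omega)
        (fun i => by omega) (fun i => by omega) (fun i => by have := hi i; omega)
        (fun i => by omega) (fun i => by simp) (fun i => by simp) (fun i => by simp))
    have b3 := stepI (D := D) (x := 28) (n := fun i => (e i).m)
      (A := fun i => inst 27 (e i).v (inst 26 (e i).i θ1))
      (α := fun i => (o3 iTr ((e i).v + VB) ((e i).i + VB) 29).fm)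
      (β := fun i => (o3 iTr ((e i).v + VB) ((e i).i + VB) 29).fm)
      hR (by omega) (by omega) (by omega)
      (fun i => nf_inst (nf_inst (nf_o3 (by omega) (by omega) (by omega))))
      (fun i => nf_inst (nf_inst (nf_o3 (by omega) (by omega) (by omega))))
      (fun i => nf_o3 (by omega) (by omega) (by omega))
      (fun i => nf_o3 (by omega) (by omega) (by omega))
      (fun i => nf_o3 (by omega) (by omega) (by omega)) hm b2
      (repI (by omega) hm (fun i => by have := hv i; omega) (fun i => by have := hi i; omega)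
        (fun i => by omega) (fun i => by have := hv i; omega) (fun i => by have := hi i; omega)
        (fun i => by omega) (fun i => by simp) (fun i => by simp) (fun i => by simp))
    have b4 := stepI (D := D) (x := 29) (n := fun i => (e i).z)
      (A := fun i => inst 28 (e i).m (inst 27 (e i).v (inst 26 (e i).i θ1)))
      (α := fun i => (o3 iTr ((e i).v + VB) ((e i).i + VB) 29).fm)
      (β := fun i => (o3 iTr ((e i).v + VB) ((e i).i + VB) ((e i).z + VB)).fm)
      hR (by omega) (by omega) (by omega)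
      (fun i => nf_inst (nf_inst (nf_inst (nf_o3 (by omega) (by omega) (by omega)))))
      (fun i => nf_inst (nf_inst (nf_inst (nf_o3 (by omega) (by omega) (by omega)))))
      (fun i => nf_o3 (by omega) (by omega) (by omega))
      (fun i => nf_o3 (by omega) (by omega) (by omega))
      (fun i => nf_o3 (by omega) (by omega) (by omega)) hz b3
      (repI (by omega) hz (fun i => by have := hv i; omega) (fun i => by have := hi i; omega)
        (fun i => by have := hz i; omega) (fun i => by have := hv i; omega)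
        (fun i => by have := hi i; omega)
        (fun i => by omega) (fun i => by simp) (fun i => by simp)
        (fun i => by simp))
    exact b4

end Pool.Agent.T9h58.IP
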