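import Pool.Agent.T9h88.IP.Spec
import Pool.Agent.T9h58.IP.Lem

/-!
# Use of the axiom `Jl`
-/

set_option autoImplicit false

namespace Pool.Agent.T9h58.IP

open Pool.Agent.TH672 (Fm Str upd upd_ne upd_same num digits varStr LogK ReplK Sw Pv)
open Pool.Agent.TH672.Form (ren)
open Pool.Agent.TH636.BC
open Pool.Agent.T9h6.BC (sz cl sz_imp sz_all sz_pos TD fo pp subst_self freeFor_self)
open Pool.Agent.T9h88.IO
open Pool.Agent.T9h88.IP
open Pool.Agent.T9h80.IO (freeFor_of_not_free)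

/-- the instance of the axiom -/
def JI (P : Fml) (L l' : ℕ) (u : ℕ) : Fml := .imp (o1 (iK L) (L + VB)).fm
  (.imp (o2 iLt u (l' + VB)).fm (.imp (n2 iLe l' L) (.imp (o2 iGd (l' + VB) 2).fm
    (.all 3 (off P)))))

/-- the instance follows -/
theorem valid_JI {P : Fml} (hP : Numerates P) (L l l' : ℕ) (S : Str ℕ) (v : ℕ → S.M) :
    Fm.Sat S ((Fm.eq 26 (l + VB)).imp ((JJ P L).imp (JI P L l' (l + VB)))) v := by
  have hVB : VB = 60 := rfl
  intro h0 h1 h2 h3 h4 h5
  have h6 := h1 (v (L + VB)) (v (l' + VB)) (v 2)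
  set w := upd (upd (upd v 24 (v (L + VB))) 25 (v (l' + VB))) 2 (v 2) with hw
  have w24 : w 24 = v (L + VB) := by
    rw [hw, upd_ne _ _ (by omega), upd_ne _ _ (by omega), upd_same]
  have w25 : w 25 = v (l' + VB) := by
    rw [hw, upd_ne _ _ (by omega), upd_same]
  have w2 : w 2 = v 2 := by rw [hw, upd_same]
  have w26 : w 26 = v (l + VB) := by
    rw [hw, upd_ne _ _ (by omega), upd_ne _ _ (by omega), upd_ne _ _ (by omega)]
    exact h0
  have nf3 : ∀ x, (Fm.all 3 (off P)).Free x → x = 2 := fun x h => by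
    rcases free_off hP h.2 with h' | h'
    · exact h'
    · exact absurd h' h.1
  have h7 : Fm.Sat S (Fm.all 3 (off P)) w := by
    refine h6 ?_ ?_ ?_ ?_
    · simp only [o1, At.fm, Fm.sat_op] at h2 ⊢
      rw [w24]; exact h2
    · simp only [o2, At.fm, Fm.sat_op] at h3 ⊢
      rw [w26, w25]; exact h3
    · simp only [n2, o2, At.fm, Fm.sat_op] at h4 ⊢
      rw [w25, w24]; exact h4
    · simp only [o2, At.fm, Fm.sat_op] at h5 ⊢
      rw [w25, w2]; exact h5
  exact (TH838.J1549.sat_cong fun x hx => by rw [nf3 x hx, w2]).1 h7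

/-- (W5) -/
theorem w5 : W5 := by
  intro ι Γ Δ D P L l l' ξ hP hR hJ hL hl hl' hc hξ hK hLt hLe hGd
  have hVB : VB = 60 := rfl
  have hLM : ∀ i, (D i).M < (D i).L := fun i => (D i).h.numlt
  have nfo : ∀ x, x ≠ 2 → x ≠ 3 → ¬ (off P).Free x := fun x h2 h3 h => by
    rcases free_off hP h with h | h
    · exact h2 h
    · exact h3 h
  -- the axiom
  obtain ⟨m, hm⟩ := Proves.of_valid (Γ := []) (φ := (Fm.eq 26 (l + VB)).imp
    ((JJ P L).imp (JI P L l' (l + VB)))) (by simp) fun S _ v => valid_JI hP L l l' S v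
  have a0 : PP Γ (fun i => (D i).L) fun _ => (Fm.eq 26 (l + VB)).imp
      ((JJ P L).imp (JI P L l' (l + VB))) := PP.const hm fun i ψ hψ => by simp at hψ
  have nfJ : ∀ x, x = 0 ∨ x = 1 → ¬ (JJ P L).Free x := by
    intro x hx h
    simp only [JJ, o1, o2, At.fm, Fm.Free] at h
    have := nfo x (by omega) (by omega)
    have h3 := h.2.2.2
    rcases h3 with h3 | h3 | h3 | h3 | h3
    all_goals first | exact this h3.2 | omega
  have nfI : ∀ x, x = 0 ∨ x = 1 ∨ x = 26 → ¬ (JI P L l' (l + VB)).Free x := by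
    intro x hx h
    simp only [JI, n2, o1, o2, At.fm, Fm.Free] at h
    have := nfo x (by omega) (by omega)
    rcases h with h3 | h3 | h3 | h3 | h3
    all_goals first | exact this h3.2 | omega
  have a1 := ppInstE (D := D) (φ := fun _ => JJ P L) (ψ := fun _ => JI P L l' (l + VB))
    (x := 26) (n := fun _ => l) (by omega) (by omega) (by omega) (fun _ => nfJ _ (.inl rfl))
    (fun _ => nfJ _ (.inr rfl)) (fun _ => nfI _ (.inl rfl)) (fun _ => nfI _ (.inr (.inl rfl)))
    (fun _ => nfI _ (.inr (.inr rfl))) hl (PP.k (sp_chi D) a0)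
  have a2 : PP Γ (fun i => (D i).L) fun _ => Jl P L l :=
    ⟨sz (Jl P L l), fun i => (Proves.ax (hJ i)).mono (const_le_pb _ _)⟩
  have a3 : PP Γ (fun i => (D i).L) fun i => (D i).χ.imp (JI P L l' (l + VB)) :=
    a1.s (PP.k (sp_chi D) a2)
  have a4 : PP Γ (fun i => (D i).L) fun i => (D i).χ.imp (.imp (o2 iGd (l' + VB) 2).fm
      (.all 3 (off P))) := ((a3.s hK).s hLt).s hLe
  -- equality
  have q1 : PP Γ (fun i => (D i).L) fun i =>
      (Fm.eq 2 (code (Δ i) + VB)).imp (.eq (code (Δ i) + VB) 2) := by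
    have r1 : PP Γ (fun i => (D i).L) fun i => (Fm.eq 2 (code (Δ i) + VB)).imp
        ((Fm.eq 2 2).imp (.eq (code (Δ i) + VB) 2)) := by
      refine ⟨1000, fun i => (Proves.log (.repl _ _ _ _ (.eq (.inr ⟨rfl, rfl⟩)
        (.inl rfl)))).mono ?_⟩
      have h1 := hc i
      have h2 := hLM i
      have h3 := mul_pb 400 1 (D i).L
      have h4 := le_pb (C := 1) (D i).L le_rfl
      have h5 : pb (400 + 1) (D i).L ≤ pb 1000 (D i).L := pb_le (by omega) le_rfl
      simp only [sz_imp, T9h6.BC.sz_eq]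
      omega
    have r2 : PP Γ (fun i => (D i).L) fun _ => (Fm.eq 2 2 : Fml) :=
      ⟨sz (Fm.eq 2 2 : Fml), fun i => (Proves.log (.refl 2)).mono (const_le_pb _ _)⟩
    exact r1.s (PP.k r1.sp.left r2)
  have q2 : PP Γ (fun i => (D i).L) fun i => (Fm.eq (code (Δ i) + VB) 2).imp
      ((n2 iGd l' (code (Δ i))).imp (o2 iGd (l' + VB) 2).fm) := by
    refine ⟨1000, fun i => (Proves.log (.repl _ _ _ _ (.op (.inl rfl) (.inr ⟨rfl, rfl⟩)
      (.inr ⟨rfl, rfl⟩) (.inr ⟨rfl, rfl⟩)))).mono ?_⟩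
    have h0 := hl' i
    have h1 := hc i
    have h2 := hLM i
    have h3 := mul_pb 900 1 (D i).L
    have h4 := le_pb (C := 1) (D i).L le_rfl
    have h5 : pb (900 + 1) (D i).L ≤ pb 1000 (D i).L := pb_le (by omega) le_rfl
    simp only [sz_imp, T9h6.BC.sz_eq, T9h6.BC.sz_op, iGd]
    omega
  have q3 := q1.trans q2
  have q4 := PP.mp (φ := fun i => (Fm.eq 2 (code (Δ i) + VB)).imp
      ((n2 iGd l' (code (Δ i))).imp (o2 iGd (l' + VB) 2).fm))
    (ψ := fun i => (n2 iGd l' (code (Δ i))).imp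
      ((Fm.eq 2 (code (Δ i) + VB)).imp (o2 iGd (l' + VB) 2).fm))
    (PP.taut (.imp (.imp (pp 0) (.imp (pp 1) (pp 2))) (.imp (pp 1) (.imp (pp 0) (pp 2))))
      (by intro S v; simp only [Fm.sat_imp]; tauto) q3.sp.left q3.sp.right.left q3.sp.right.right
      q3.sp.left fun _ _ => rfl) q3
  -- together
  have g1 : PP Γ (fun i => (D i).L) fun i => (D i).χ.imp ((ξ i).imp
      ((Fm.eq 2 (code (Δ i) + VB)).imp (o2 iGd (l' + VB) 2).fm)) :=
    hGd.transr (PP.k (sp_chi D) q4)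
  have g2 : PP Γ (fun i => (D i).L) fun i => (D i).χ.imp ((Fm.eq 2 (code (Δ i) + VB)).imp
      ((ξ i).imp (o2 iGd (l' + VB) 2).fm)) := g1.perm
  have r3 : PP Γ (fun i => (D i).L) fun _ => (Fm.all 3 (off P)).imp (off P) := by
    have h := LogK.inst 3 3 (off P) (freeFor_self _)
    rw [subst_self] at h
    exact ⟨_, fun i => (Proves.log h).mono (const_le_pb _ _)⟩
  have g3 : PP Γ (fun i => (D i).L) fun i => (D i).χ.imp (.imp (o2 iGd (l' + VB) 2).fm (off P)) :=
    a4.transr (PP.k (sp_chi D) r3)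
  have g4 : PP Γ (fun i => (D i).L) fun i => (D i).χ.imp
      (.imp ((ξ i).imp (o2 iGd (l' + VB) 2).fm) ((ξ i).imp (off P))) := by
    refine g3.trans ?_
    exact PP.taut (.imp (.imp (pp 0) (pp 1)) (.imp (.imp (pp 2) (pp 0)) (.imp (pp 2) (pp 1))))
      (by intro S v; simp only [Fm.sat_imp]; tauto) g3.sp.right.left g3.sp.right.right
      g1.sp.right.left g3.sp.left fun _ _ => rfl
  have g5 := g2.transr g4
  have g6 := ppInstI hR (by omega) (by omega) (by omega) (fun i => nfo _ (by omega) (by omega))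
    (fun i => nfo _ (by omega) (by omega)) (fun i => hξ i _ (by omega)) (fun i => hξ i _ (by omega))
    (fun i => hξ i _ (by omega)) hc g5
  have g7 := (g6.unexp.genr (x := 3) (fun i h => by
    simp only [Fm.and, Fm.neg, Fm.Free, or_false] at h
    rcases h with h | h
    · exact nf_chi (D i) (by omega) h
    · exact hξ i _ (by omega) h)).exp (sp_chi D) g1.sp.right.left
  exact g7

end Pool.Agent.T9h58.IP
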